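import Pool.Agent.W2helper63.LL.Stm

/-!
# Project LL, piece OPEN
-/

set_option autoImplicit false

noncomputable section

namespace Pool.Agent.W2helper2.LL

open IsDedekindDomain Polynomial Matrix WithZero Pool.Agent.W2helper63.LL
open scoped Classical

section loc

variable {L : Type} [Field L] [Valued L (WithZero (Multiplicative ℤ))]

theorem intg_one : Integral (1 : GL (Fin 2) L) := by
  intro i j
  rw [inv_one]
  have : Valued.v ((1 : GL (Fin 2) L).1 i j) ≤ 1 := by
    by_cases h : i = j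
    · subst h
      simp
    · simp [Matrix.one_apply_ne h]
  exact ⟨this, this⟩

theorem intg_inv {g : GL (Fin 2) L} (h : Integral g) : Integral g⁻¹ := by
  intro i j
  rw [inv_inv]
  exact ⟨(h i j).2, (h i j).1⟩

theorem val_sum_le {x y : L} {c : WithZero (Multiplicative ℤ)} (hx : Valued.v x ≤ c)
    (hy : Valued.v y ≤ c) : Valued.v (x + y) ≤ c :=
  (Valued.v.map_add x y).trans (max_le hx hy)

theorem val_sum_lt {x y : L} {c : WithZero (Multiplicative ℤ)} (hx : Valued.v x < c)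
    (hy : Valued.v y < c) : Valued.v (x + y) < c :=
  lt_of_le_of_lt (Valued.v.map_add x y) (max_lt hx hy)

theorem mul_entry_le {a b : Matrix (Fin 2) (Fin 2) L} (ha : ∀ i j, Valued.v (a i j) ≤ 1)
    (hb : ∀ i j, Valued.v (b i j) ≤ 1) (i j : Fin 2) : Valued.v ((a * b) i j) ≤ 1 := by
  rw [Matrix.mul_apply, Fin.sum_univ_two]
  refine val_sum_le ?_ ?_ <;> rw [map_mul] <;> exact mul_le_one' (ha _ _) (hb _ _)

theorem intg_mul {g h : GL (Fin 2) L} (hg : Integral g) (hh : Integral h) : Integral (g * h) := by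
  intro i j
  refine ⟨mul_entry_le (fun i j => (hg i j).1) (fun i j => (hh i j).1) i j, ?_⟩
  rw [_root_.mul_inv_rev]
  exact mul_entry_le (fun i j => (hh i j).2) (fun i j => (hg i j).2) i j

/-- integral and congruent to `1` modulo the maximal ideal -/
def Cg (g : GL (Fin 2) L) : Prop :=
  Integral g ∧ ∀ i j, Valued.v (g.1 i j - (1 : Matrix (Fin 2) (Fin 2) L) i j) < 1

theorem mul_lt_left {x y : L} (hx : Valued.v x < 1) (hy : Valued.v y ≤ 1) :
    Valued.v (x * y) < 1 := by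
  rw [map_mul]
  exact lt_of_le_of_lt (mul_le_of_le_one_right' hy) hx

theorem mul_lt_right {x y : L} (hx : Valued.v x ≤ 1) (hy : Valued.v y < 1) :
    Valued.v (x * y) < 1 := by
  rw [map_mul]
  exact lt_of_le_of_lt (mul_le_of_le_one_left' hx) hy

theorem cg_one : Cg (1 : GL (Fin 2) L) := by
  refine ⟨intg_one, fun i j => ?_⟩
  rw [Units.val_one, sub_self, map_zero]
  exact zero_lt_one

theorem cg_mul {g h : GL (Fin 2) L} (hg : Cg g) (hh : Cg h) : Cg (g * h) := by
  refine ⟨intg_mul hg.1 hh.1, fun i j => ?_⟩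
  have e : (g * h).1 i j - (1 : Matrix (Fin 2) (Fin 2) L) i j =
      ((g.1 - 1) * h.1) i j + (h.1 - 1) i j := by
    rw [sub_mul, one_mul]
    simp only [Matrix.sub_apply, Units.val_mul]
    ring
  rw [e]
  refine val_sum_lt ?_ (hh.2 i j)
  rw [Matrix.mul_apply, Fin.sum_univ_two]
  exact val_sum_lt (mul_lt_left (hg.2 _ _) (hh.1 _ _).1) (mul_lt_left (hg.2 _ _) (hh.1 _ _).1)

theorem cg_inv {g : GL (Fin 2) L} (hg : Cg g) : Cg g⁻¹ := by
  refine ⟨intg_inv hg.1, fun i j => ?_⟩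
  have e0 : (g⁻¹).1 * g.1 = 1 := g.inv_mul
  have e : (g⁻¹).1 i j - (1 : Matrix (Fin 2) (Fin 2) L) i j =
      - ((g⁻¹).1 * (g.1 - 1)) i j := by
    rw [mul_sub, e0, mul_one]
    simp only [Matrix.sub_apply]
    ring
  rw [e, Valuation.map_neg, Matrix.mul_apply, Fin.sum_univ_two]
  exact val_sum_lt (mul_lt_right (hg.1 _ _).2 (hg.2 _ _)) (mul_lt_right (hg.1 _ _).2 (hg.2 _ _))

theorem cg_off {g : GL (Fin 2) L} (hg : Cg g) {i j : Fin 2} (h : i ≠ j) :
    Valued.v (g.1 i j) < 1 := by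
  have := hg.2 i j
  rwa [Matrix.one_apply_ne h, sub_zero] at this

theorem cg_diag {g : GL (Fin 2) L} (hg : Cg g) (i : Fin 2) : ¬ Valued.v (g.1 i i) < 1 := by
  intro h
  have h1 := hg.2 i i
  rw [Matrix.one_apply_eq] at h1
  have h2 : Valued.v (1 : L) < 1 := by
    have : (1 : L) = g.1 i i - (g.1 i i - 1) := by ring
    rw [this]
    exact lt_of_le_of_lt (Valued.v.map_sub _ _) (max_lt h h1)
  rw [map_one] at h2
  exact lt_irrefl _ h2

theorem cg_rd {g : GL (Fin 2) L} (hg : Cg g) : g.1.map rd = 1 := by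
  ext i j
  rw [Matrix.map_apply]
  unfold rd
  by_cases h : i = j
  · subst h
    rw [if_neg (cg_diag hg i), Matrix.one_apply_eq]
  · rw [if_pos (cg_off hg h), Matrix.one_apply_ne h]

theorem cg_sgn {g : GL (Fin 2) L} (hg : Cg g) : sgn g = 1 := by
  unfold sgn sgnM
  rw [cg_rd hg, if_pos (Or.inl rfl)]

theorem cont_entry {S : Type} [CommRing S] [TopologicalSpace S] (i j : Fin 2) :
    Continuous fun g : GL (Fin 2) S => g.1 i j :=
  Continuous.matrix_elem Units.continuous_val i j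

theorem cont_inv_entry {S : Type} [CommRing S] [TopologicalSpace S] (i j : Fin 2) :
    Continuous fun g : GL (Fin 2) S => g⁻¹.1 i j :=
  Continuous.matrix_elem Units.continuous_coe_inv i j

theorem open_intg_set : IsOpen {x : L | Valued.v x ≤ 1} := by
  have := Valued.isOpen_integer L
  exact this

theorem open_lt_set : IsOpen {x : L | Valued.v x < 1} := by
  have h := Valued.isOpen_ball L 1
  have e : {x : L | Valued.v.restrict x < 1} = {x : L | Valued.v x < 1} := by
    ext x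
    exact Valuation.restrict_lt_one_iff _
  rwa [e] at h

theorem open_cg : IsOpen {g : GL (Fin 2) L | Cg g} := by
  have e : {g : GL (Fin 2) L | Cg g} =
      (⋂ i : Fin 2, ⋂ j : Fin 2, ((fun g : GL (Fin 2) L => g.1 i j) ⁻¹' {x : L | Valued.v x ≤ 1})) ∩
      ((⋂ i : Fin 2, ⋂ j : Fin 2, ((fun g : GL (Fin 2) L => g⁻¹.1 i j) ⁻¹'
        {x : L | Valued.v x ≤ 1})) ∩
      (⋂ i : Fin 2, ⋂ j : Fin 2, ((fun g : GL (Fin 2) L => g.1 i j -
        (1 : Matrix (Fin 2) (Fin 2) L) i j) ⁻¹' {x : L | Valued.v x < 1}))) := by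
    ext g
    simp only [Set.mem_ofPred_eq, Cg, Integral, Set.mem_inter_iff, Set.mem_iInter,
      Set.mem_preimage]
    constructor
    · rintro ⟨h1, h2⟩
      exact ⟨fun i j => (h1 i j).1, fun i j => (h1 i j).2, h2⟩
    · rintro ⟨h1, h2, h3⟩
      exact ⟨fun i j => ⟨h1 i j, h2 i j⟩, h3⟩
  rw [e]
  refine IsOpen.inter ?_ (IsOpen.inter ?_ ?_)
  · exact isOpen_iInter_of_finite fun i => isOpen_iInter_of_finite fun j =>
      open_intg_set.preimage (cont_entry i j)
  · exact isOpen_iInter_of_finite fun i => isOpen_iInter_of_finite fun j =>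
      open_intg_set.preimage (cont_inv_entry i j)
  · exact isOpen_iInter_of_finite fun i => isOpen_iInter_of_finite fun j =>
      open_lt_set.preimage ((cont_entry i j).sub continuous_const)

end loc

theorem cont_ev (v : Pl) : Continuous (fun a : Af => a v) :=
  RestrictedProduct.continuous_eval v

theorem open_int_af : IsOpen {a : Af | ∀ v : Pl, Valued.v (a v) ≤ 1} := by
  have h : ∀ v : Pl, IsOpen (v.adicCompletionIntegers K : Set (v.adicCompletion K)) :=
    fun _ => Valued.isOpen_valuationSubring _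
  exact RestrictedProduct.isOpen_forall_mem h

theorem pr_apply (v : Pl) (k : GA) (i j : Fin 2) : (pr v k).1 i j = (k.1.1 i j) v := rfl

theorem pr_inv_apply (v : Pl) (k : GA) (i j : Fin 2) : (pr v k)⁻¹.1 i j = (k.1⁻¹.1 i j) v := by
  unfold pr
  rw [← map_inv]
  rfl

theorem pr_mul (v : Pl) (k l : GA) : pr v (k * l) = pr v k * pr v l := by
  unfold pr
  rw [Prod.fst_mul, map_mul]

theorem pr_one (v : Pl) : pr v 1 = 1 := by
  unfold pr
  rw [Prod.fst_one, map_one]

theorem pr_inv (v : Pl) (k : GA) : pr v k⁻¹ = (pr v k)⁻¹ := by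
  unfold pr
  rw [Prod.fst_inv, map_inv]

/-- the subgroup -/
def H0 : Subgroup GA where
  carrier := {k | (∀ v : Pl, Integral (pr v k)) ∧ Cg (pr v0 k) ∧ Cg (pr v1 k) ∧ Cg k.2}
  one_mem' := by
    refine ⟨fun v => ?_, ?_, ?_, cg_one⟩
    · rw [pr_one]
      exact intg_one
    · rw [pr_one]
      exact cg_one
    · rw [pr_one]
      exact cg_one
  mul_mem' := by
    rintro a b ⟨h1, h2, h3, h4⟩ ⟨k1, k2, k3, k4⟩
    refine ⟨fun v => ?_, ?_, ?_, cg_mul h4 k4⟩
    · rw [pr_mul]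
      exact intg_mul (h1 v) (k1 v)
    · rw [pr_mul]
      exact cg_mul h2 k2
    · rw [pr_mul]
      exact cg_mul h3 k3
  inv_mem' := by
    rintro a ⟨h1, h2, h3, h4⟩
    refine ⟨fun v => ?_, ?_, ?_, cg_inv h4⟩
    · rw [pr_inv]
      exact intg_inv (h1 v)
    · rw [pr_inv]
      exact cg_inv h2
    · rw [pr_inv]
      exact cg_inv h3

theorem cont_pr (v : Pl) : Continuous (fun k : GA => pr v k) := by
  refine Units.continuous_iff.2 ⟨?_, ?_⟩
  · refine continuous_matrix fun i j => ?_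
    exact (cont_ev v).comp ((cont_entry i j).comp continuous_fst)
  · refine continuous_matrix fun i j => ?_
    have : (fun k : GA => ((pr v k)⁻¹ : GL (Fin 2) (Kv v)).1 i j) =
        fun k : GA => (k.1⁻¹.1 i j) v := by
      funext k
      exact pr_inv_apply v k i j
    show Continuous (fun k : GA => ((pr v k)⁻¹ : GL (Fin 2) (Kv v)).1 i j)
    rw [this]
    exact (cont_ev v).comp ((cont_inv_entry i j).comp continuous_fst)

theorem open_H0 : IsOpen (H0 : Set GA) := by
  have e : (H0 : Set GA) =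
      ((⋂ i : Fin 2, ⋂ j : Fin 2, ((fun k : GA => k.1.1 i j) ⁻¹'
        {a : Af | ∀ v : Pl, Valued.v (a v) ≤ 1})) ∩
      (⋂ i : Fin 2, ⋂ j : Fin 2, ((fun k : GA => k.1⁻¹.1 i j) ⁻¹'
        {a : Af | ∀ v : Pl, Valued.v (a v) ≤ 1}))) ∩
      (((fun k : GA => pr v0 k) ⁻¹' {g | Cg g}) ∩ (((fun k : GA => pr v1 k) ⁻¹' {g | Cg g}) ∩
        ((fun k : GA => k.2) ⁻¹' {g | Cg g}))) := by
    ext k
    show ((∀ v : Pl, Integral (pr v k)) ∧ Cg (pr v0 k) ∧ Cg (pr v1 k) ∧ Cg k.2) ↔ _
    simp only [Set.mem_inter_iff, Set.mem_iInter, Set.mem_preimage, Set.mem_ofPred_eq]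
    constructor
    · rintro ⟨h1, h2, h3, h4⟩
      refine ⟨⟨fun i j v => ?_, fun i j v => ?_⟩, h2, h3, h4⟩
      · exact (h1 v i j).1
      · rw [← pr_inv_apply]
        exact (h1 v i j).2
    · rintro ⟨⟨h1, h2⟩, h3, h4, h5⟩
      refine ⟨fun v i j => ⟨h1 i j v, ?_⟩, h3, h4, h5⟩
      rw [pr_inv_apply]
      exact h2 i j v
  rw [e]
  refine IsOpen.inter (IsOpen.inter ?_ ?_) (IsOpen.inter ?_ (IsOpen.inter ?_ ?_))
  · exact isOpen_iInter_of_finite fun i => isOpen_iInter_of_finite fun j =>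
      open_int_af.preimage ((cont_entry i j).comp continuous_fst)
  · exact isOpen_iInter_of_finite fun i => isOpen_iInter_of_finite fun j =>
      open_int_af.preimage ((cont_inv_entry i j).comp continuous_fst)
  · exact open_cg.preimage (cont_pr v0)
  · exact open_cg.preimage (cont_pr v1)
  · exact open_cg.preimage continuous_snd

/-- the subgroup at infinity -/
def H1 : Subgroup (GL (Fin 2) Kinf) where
  carrier := {k | Cg k}
  one_mem' := cg_one
  mul_mem' := fun ha hb => cg_mul ha hb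
  inv_mem' := fun ha => cg_inv ha

theorem opn : S_OPEN := by
  refine ⟨⟨H0, open_H0, fun k hk => ?_⟩, ⟨H1, open_cg, fun k hk => ?_⟩⟩
  · obtain ⟨h1, h2, h3, h4⟩ := hk
    exact ⟨⟨h1, h4.1, cg_off h2 (by decide), cg_off h4 (by decide)⟩, cg_sgn h3⟩
  · exact ⟨hk.1, cg_off hk (by decide)⟩

end Pool.Agent.W2helper2.LL
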