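import Pool.Agent.W2helper2.LL.BJ
import Pool.Agent.W2helper46.LL.CN
import Pool.Agent.W2helper19.LL.Min
import Pool.Agent.W2helper6.LL.E4
import Pool.Agent.W2helper77.LL.Tri
import Pool.Agent.W2helper53.LL.Ex
import Pool.Agent.W2helper53.LL.Iwa
import Pool.Agent.W2helper46.LL.Asy
import Pool.Agent.W2helper71.LL.Add
import Pool.Agent.W2helper12.LL.Intk
import Pool.Agent.W2helper98.LL.Desc
import Pool.Agent.W2helper76.LL.Adm

/-!
# S_BJ: the representation `St_∞ ∘ pr` is a subquotient of the space of automorphic forms in the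
sense of Borel and Jacquet
-/

set_option autoImplicit false

namespace Pool.Agent.W2helper2.LL

open Pool.Agent.W2helper63.LL

theorem bj : S_BJ :=
  bj_all Pool.Agent.W2helper46.LL.cn Pool.Agent.W2helper19.LL.mn Pool.Agent.W2helper6.LL.e4
    Pool.Agent.W2helper77.LL.tri Pool.Agent.W2helper53.LL.ex Pool.Agent.W2helper46.LL.asy
    Pool.Agent.W2helper53.LL.iwa Pool.Agent.W2helper12.LL.intk Pool.Agent.W2helper98.LL.p_desc
    Pool.Agent.W2helper76.LL.Adm.adm

end Pool.Agent.W2helper2.LL
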