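import Pool.Agent.W2helper2.LL.BJFin

/-!
# S_BJ from the existence of `F0`
-/

set_option autoImplicit false

noncomputable section

namespace Pool.Agent.W2helper2.LL

open IsDedekindDomain Polynomial Matrix WithZero Filter Topology
open Pool.Agent.W2helper63.LL
open scoped Classical

theorem rt_mul {G : Type} [Group G] (g h : G) (φ : G → ℂ) : rt (g * h) φ = rt g (rt h φ) := by
  rw [map_mul]
  rfl

theorem ri_comm (i : GL (Fin 2) Af) (h : GL (Fin 2) Kinf) : ri h * ((i, 1) : GA) = (i, 1) * ri h := by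
  refine Prod.ext ?_ ?_
  · show 1 * i = i * 1
    simp
  · show h * 1 = 1 * h
    simp

/-- the right smooth functions -/
def RS : Submodule ℂ (GA → ℂ) where
  carrier := {φ | (∀ γ g, φ (dg γ * g) = φ g) ∧ RSmooth φ}
  zero_mem' := ⟨fun _ _ => rfl, ⟨⊤, isOpen_univ, fun _ _ _ => rfl⟩⟩
  add_mem' := by
    rintro φ ψ ⟨h1, U, hU, h2⟩ ⟨k1, U', hU', k2⟩
    refine ⟨fun γ g => by simp [h1, k1], ⟨U ⊓ U', hU.inter hU', fun g u hu => ?_⟩⟩
    simp [h2 g u hu.1, k2 g u hu.2]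
  smul_mem' := by
    rintro c φ ⟨h1, U, hU, h2⟩
    exact ⟨fun γ g => by simp [h1], ⟨U, hU, fun g u hu => by simp [h2 g u hu]⟩⟩

theorem RS_stable : Stable (rt : Representation ℂ GA (GA → ℂ)) RS := by
  rintro x φ ⟨h, h'⟩
  refine ⟨fun γ g => ?_, h'.rt x⟩
  show φ (dg γ * g * x) = φ (g * x)
  rw [mul_assoc, h]

section main

variable {F : GA → ℂ} (hF : IsF0 F)

include hF

theorem F_RS (opn : S_OPEN) : F ∈ RS := by
  obtain ⟨⟨H, hH, h⟩, -⟩ := opn
  refine ⟨hF.left, H, hH, fun g u hu => ?_⟩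
  obtain ⟨⟨h1, h2, -, h4⟩, -⟩ := h u hu
  have e : g * u = g * ri u.2 * (u.1, 1) := by
    rw [mul_assoc]
    congr 1
    refine Prod.ext ?_ ?_
    · show u.1 = 1 * u.1
      rw [one_mul]
    · show u.2 = u.2 * 1
      rw [mul_one]
  rw [e, hF.right (g * ri u.2) (u.1, 1) h1 rfl, hF.iw _ _ ⟨h2, h4⟩]

theorem F_XB : F ∈ XB := by
  intro g
  obtain ⟨N, hN⟩ := hF.asy g
  refine ⟨- phi0 g, ?_⟩
  refine tendsto_const_nhds.congr' ?_
  filter_upwards [eventually_ge_atTop N] with k hk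
  exact (hN k hk).symm

theorem Bo_F : Bo ⟨F, F_XB hF⟩ = - phi0 := by
  funext g
  obtain ⟨N, hN⟩ := hF.asy g
  show limUnder atTop (sq F g) = - phi0 g
  have : Tendsto (sq F g) atTop (𝓝 (- phi0 g)) := by
    refine tendsto_const_nhds.congr' ?_
    filter_upwards [eventually_ge_atTop N] with k hk
    exact (hN k hk).symm
  exact this.limUnder_eq

/-- the vectors at infinity -/
def vi (F : GA → ℂ) (i : GL (Fin 2) Af) : Q := consts.mkQ (rt ((i, 1) : GA) F)

theorem vi_st (i : GL (Fin 2) Af) : StVec (resInf rq) pinf (vi F i) where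
  iw := by
    intro g hg
    rw [resInf_apply]
    unfold vi
    rw [rq_mk]
    congr 1
    funext x
    show F (x * ri g * (i, 1)) = F (x * (i, 1))
    rw [mul_assoc, ri_comm, ← mul_assoc, hF.iw _ _ hg]
  w := by
    rw [resInf_apply]
    unfold vi
    rw [rq_mk, eq_neg_iff_add_eq_zero, ← map_add, Submodule.mkQ_apply,
      Submodule.Quotient.mk_eq_zero]
    unfold consts
    rw [Submodule.mem_span_singleton]
    refine ⟨-1, ?_⟩
    funext x
    show -1 * 1 = F (x * ri (ww pinf) * (i, 1)) + F (x * (i, 1))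
    rw [mul_assoc x, ri_comm, ← mul_assoc, add_comm, hF.w]
    norm_num
  rel := by
    rw [resInf_apply, resInf_apply]
    unfold vi
    rw [rq_mk, rq_mk, ← map_add, ← map_add, Submodule.mkQ_apply,
      Submodule.Quotient.mk_eq_zero]
    unfold consts
    rw [Submodule.mem_span_singleton]
    refine ⟨-1, ?_⟩
    funext x
    show -1 * 1 = F (x * (i, 1)) + F (x * ri sw * (i, 1)) + F (x * ri (nu 1 * sw) * (i, 1))
    rw [mul_assoc x, mul_assoc x, ri_comm, ri_comm, ← mul_assoc, ← mul_assoc, hF.rel]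
    norm_num
  cen := by
    intro z
    rw [resInf_apply]
    unfold vi
    rw [rq_mk]
    congr 1
    funext x
    show F (x * ri (bor z 0 z) * (i, 1)) = F (x * (i, 1))
    rw [mul_assoc, ri_comm, ← mul_assoc, hF.cen]

omit hF in
theorem sup_stable {V : Type} [AddCommGroup V] [Module ℂ V]
    (ρ : Representation ℂ (GL (Fin 2) Kinf) V) {ι : Type} (s : Finset ι) (u : ι → V) :
    Stable ρ (⨆ i ∈ s, gen ρ (u i)) := by
  intro g v hv
  have h : (⨆ i ∈ s, gen ρ (u i)) ≤ (⨆ i ∈ s, gen ρ (u i)).comap (ρ g) := by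
    refine iSup₂_le fun i hi => ?_
    intro y hy
    exact (le_iSup₂ (f := fun i (_ : i ∈ s) => gen ρ (u i)) i hi) (gen_stable ρ (u i) g y hy)
  exact h hv

/-- the translates of the elements of `gen rt F` lie in a finite sum modulo constants -/
theorem mem_sup (φ : GA → ℂ) (hφ : φ ∈ gen rt F) : ∃ s : Finset (GL (Fin 2) Af),
    consts.mkQ φ ∈ ⨆ i ∈ s, gen (resInf rq) (vi F i) := by
  unfold gen at hφ
  induction hφ using Submodule.span_induction with
  | mem x hx =>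
    obtain ⟨g, rfl⟩ := hx
    refine ⟨{g.1}, ?_⟩
    have e : g = ri g.2 * (g.1, 1) := by
      refine Prod.ext ?_ ?_
      · show g.1 = 1 * g.1
        rw [one_mul]
      · show g.2 = g.2 * 1
        rw [mul_one]
    have h1 : consts.mkQ (rt g F) = resInf rq g.2 (vi F g.1) := by
      rw [resInf_apply]
      unfold vi
      rw [rq_mk, ← rt_mul, ← e]
    simp only [Finset.mem_singleton, iSup_iSup_eq_left]
    rw [h1]
    exact mem_gen _ _ _
  | zero =>
    exact ⟨∅, by rw [map_zero]; exact Submodule.zero_mem _⟩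
  | add x y _ _ hx hy =>
    obtain ⟨s, hs⟩ := hx
    obtain ⟨t, ht⟩ := hy
    refine ⟨s ∪ t, ?_⟩
    rw [map_add]
    refine Submodule.add_mem _ ?_ ?_
    · exact (iSup₂_le fun i hi => le_iSup₂ (f := fun i (_ : i ∈ s ∪ t) =>
        gen (resInf rq) (vi F i)) i (Finset.mem_union_left _ hi)) hs
    · exact (iSup₂_le fun i hi => le_iSup₂ (f := fun i (_ : i ∈ s ∪ t) =>
        gen (resInf rq) (vi F i)) i (Finset.mem_union_right _ hi)) ht
  | smul c x _ hx =>
    obtain ⟨s, hs⟩ := hx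
    exact ⟨s, by rw [map_smul]; exact Submodule.smul_mem _ _ hs⟩

theorem adm_F (adm : S_ADM) (fri : S_FRI) (φ : GA → ℂ) (hφ : φ ∈ gen rt F)
    (H : Subgroup (GL (Fin 2) Kinf)) (hH : IsOpen (H : Set (GL (Fin 2) Kinf))) :
    ∃ B : Finset (GA → ℂ), ∀ ψ ∈ gen (resInf rt) φ, (∀ h ∈ H, rt (ri h) ψ = ψ) →
      ψ ∈ Submodule.span ℂ (B : Set (GA → ℂ)) := by
  obtain ⟨s, hs⟩ := mem_sup hF φ hφ
  obtain ⟨B, hB⟩ := adm Kinf pinf fri Q (resInf rq) (GL (Fin 2) Af) s (vi F)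
    (fun i _ => vi_st hF i) H hH
  -- lift
  obtain ⟨l, hl⟩ := consts.mkQ_surjective.hasRightInverse
  refine ⟨insert (fun _ => (1 : ℂ)) (B.image l), fun ψ hψ hi => ?_⟩
  have h1 : consts.mkQ ψ ∈ ⨆ i ∈ s, gen (resInf rq) (vi F i) := by
    have h2 : gen (resInf rt) φ ≤ (⨆ i ∈ s, gen (resInf rq) (vi F i)).comap consts.mkQ := by
      refine gen_le _ _ _ ?_ hs
      intro g y hy
      show consts.mkQ (rt (ri g) y) ∈ (⨆ i ∈ s, gen (resInf rq) (vi F i) : Submodule ℂ Q)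
      rw [← rq_mk, ← resInf_apply]
      exact sup_stable _ _ _ _ _ hy
    exact h2 hψ
  have h3 := hB _ h1 (fun h hh => by
    rw [resInf_apply, rq_mk, hi h hh])
  have h4 : Submodule.span ℂ (B : Set Q) ≤
      (Submodule.span ℂ ((B.image l : Finset (GA → ℂ)) : Set (GA → ℂ))).map consts.mkQ := by
    rw [Submodule.span_le]
    intro b hb
    refine ⟨l b, Submodule.subset_span ?_, hl b⟩
    rw [Finset.coe_image]
    exact ⟨b, hb, rfl⟩
  obtain ⟨χ, hχ, e⟩ := h4 h3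
  have h5 : ψ - χ ∈ consts := by
    rw [← Submodule.Quotient.mk_eq_zero, ← Submodule.mkQ_apply, map_sub, e, sub_self]
  have h6 : ψ = (ψ - χ) + χ := by rw [sub_add_cancel]
  rw [h6]
  refine Submodule.add_mem _ ?_ ?_
  · refine Submodule.span_mono ?_ h5
    rw [Finset.coe_insert]
    exact Set.singleton_subset_iff.2 (Set.mem_insert _ _)
  · refine Submodule.span_mono ?_ hχ
    rw [Finset.coe_insert]
    exact Set.subset_insert _ _

theorem bj_of (adm : S_ADM) (fri : S_FRI) (opn : S_OPEN) (mod : S_MOD) :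
    ∃ (W : Submodule ℂ (GA → ℂ)) (q : W →ₗ[ℂ] Q), (∀ φ ∈ W, AutForm φ) ∧ Stable rt W ∧
    LinearMap.range q = gen (resInf rq) u1 ∧
    ∀ (g : GA) (φ ψ : W), (ψ : GA → ℂ) = rt g φ → q ψ = rq g (q φ) := by
  have mo := mod fri opn
  have hXB : gen rt F ≤ XB := gen_le _ _ _ XB_stable (F_XB hF)
  have hRS : gen rt F ≤ RS := gen_le _ _ _ RS_stable (F_RS hF opn)
  let q : gen rt F →ₗ[ℂ] Q := -(consts.mkQ ∘ₗ Bo ∘ₗ Submodule.inclusion hXB)
  have hq : ∀ φ : gen rt F, q φ = - consts.mkQ (Bo (Submodule.inclusion hXB φ)) := fun _ => rfl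
  have heq : ∀ (g : GA) (φ ψ : gen rt F), (ψ : GA → ℂ) = rt g φ → q ψ = rq g (q φ) := by
    intro g φ ψ h
    rw [hq, hq, map_neg, rq_mk, Bo_rt g (Submodule.inclusion hXB φ) _ h]
  have hqF : q ⟨F, self_mem_gen rt F⟩ = u1 := by
    rw [hq]
    have : Submodule.inclusion hXB ⟨F, self_mem_gen rt F⟩ = ⟨F, F_XB hF⟩ := rfl
    rw [this, Bo_F hF, map_neg, neg_neg]
    rfl
  refine ⟨gen rt F, q, fun φ hφ => ⟨(hRS hφ).1, (hRS hφ).2, adm_F hF adm fri φ hφ⟩,
    gen_stable _ _, le_antisymm ?_ ?_, heq⟩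
  · -- range ≤ gen
    have key : ∀ φ (hφ : φ ∈ gen rt F), q ⟨φ, hφ⟩ ∈ gen (resInf rq) u1 := by
      intro φ hφ
      have h1 : gen rt F ≤ ((gen (resInf rq) u1).comap q).map (gen rt F).subtype := by
        refine gen_le _ _ _ ?_ ⟨⟨F, self_mem_gen rt F⟩, ?_, rfl⟩
        · rintro g _ ⟨x, hx, rfl⟩
          refine ⟨⟨rt g x, gen_stable _ _ _ _ x.2⟩, ?_, rfl⟩
          show q ⟨rt g x, _⟩ ∈ gen (resInf rq) u1
          rw [heq g x ⟨rt g x, gen_stable _ _ _ _ x.2⟩ rfl, rq_eq mo g _ hx]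
          exact gen_stable _ _ _ _ hx
        · show q _ ∈ gen (resInf rq) u1
          rw [hqF]
          exact self_mem_gen _ _
      obtain ⟨x, hx, e⟩ := h1 hφ
      have : x = ⟨φ, hφ⟩ := Subtype.ext e
      rw [← this]
      exact hx
    rintro _ ⟨⟨φ, hφ⟩, rfl⟩
    exact key φ hφ
  · refine gen_le _ _ _ ?_ ⟨_, hqF⟩
    rintro g _ ⟨x, rfl⟩
    refine ⟨⟨rt (ri g) x, gen_stable _ _ _ _ x.2⟩, ?_⟩
    rw [heq (ri g) x ⟨rt (ri g) x, gen_stable _ _ _ _ x.2⟩ rfl]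
    rfl

end main

/-- S_BJ from the pieces -/
theorem bj_all (cn : S_CN) (min : S_MIN) (e4 : S_E4) (tri : S_TRI) (ex : S_EX) (asy : S_ASY)
    (iwa : S_IWA) (intk : S_INTK) (desc : S_DESC) (adm : S_ADM) : S_BJ := by
  intro _ fri opn mod
  obtain ⟨f, hf⟩ := ex fri min tri e4
  obtain ⟨F, hF⟩ := exists_F0 cn fri iwa intk desc asy f hf
  exact bj_of hF adm fri opn mod

end Pool.Agent.W2helper2.LL
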