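import Pool.Agent.W2helper2.LL.BJStm
import Pool.Agent.W2helper2.LL.Opn

/-!
# Assembly of S_BJ
-/

set_option autoImplicit false

noncomputable section

namespace Pool.Agent.W2helper2.LL

open IsDedekindDomain Polynomial Matrix WithZero Filter Topology
open Pool.Agent.W2helper63.LL
open scoped Classical

/-- the element `(T^k 0; 0 1)` at infinity, `1` elsewhere -/
def dk (k : ℕ) : GA := ri (bor (Tu ^ k) 0 1)

/-- the sequence whose limit is the operator `B` -/
def sq (φ : GA → ℂ) (g : GA) (k : ℕ) : ℂ := 2 * φ (dk k * g) - φ (dk (k + 1) * g)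

/-- functions for which the limit exists at every point -/
def XB : Submodule ℂ (GA → ℂ) where
  carrier := {φ | ∀ g, ∃ c, Tendsto (sq φ g) atTop (𝓝 c)}
  zero_mem' := fun g => ⟨0, by
    have : sq 0 g = fun _ => 0 := by
      funext k
      simp [sq]
    rw [this]
    exact tendsto_const_nhds⟩
  add_mem' := by
    intro φ ψ h1 h2 g
    obtain ⟨c, hc⟩ := h1 g
    obtain ⟨d, hd⟩ := h2 g
    refine ⟨c + d, ?_⟩
    have : sq (φ + ψ) g = fun k => sq φ g k + sq ψ g k := by
      funext k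
      simp only [sq, Pi.add_apply]
      ring
    rw [this]
    exact hc.add hd
  smul_mem' := by
    intro a φ h1 g
    obtain ⟨c, hc⟩ := h1 g
    refine ⟨a * c, ?_⟩
    have : sq (a • φ) g = fun k => a * sq φ g k := by
      funext k
      simp only [sq, Pi.smul_apply, smul_eq_mul]
      ring
    rw [this]
    exact hc.const_mul a

/-- the operator `B` -/
def Bo : XB →ₗ[ℂ] (GA → ℂ) where
  toFun φ g := limUnder atTop (sq φ g)
  map_add' := by
    intro φ ψ
    funext g
    obtain ⟨c, hc⟩ := φ.2 g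
    obtain ⟨d, hd⟩ := ψ.2 g
    have : sq ((φ + ψ : XB) : GA → ℂ) g = fun k => sq φ g k + sq ψ g k := by
      funext k
      simp only [sq, Submodule.coe_add, Pi.add_apply]
      ring
    rw [Pi.add_apply, this, hc.limUnder_eq, hd.limUnder_eq, (hc.add hd).limUnder_eq]
  map_smul' := by
    intro a φ
    funext g
    obtain ⟨c, hc⟩ := φ.2 g
    have : sq ((a • φ : XB) : GA → ℂ) g = fun k => a * sq φ g k := by
      funext k
      simp only [sq, Submodule.coe_smul, Pi.smul_apply, smul_eq_mul]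
      ring
    rw [Pi.smul_apply, this, hc.limUnder_eq, (hc.const_mul a).limUnder_eq]
    rfl

theorem sq_rt (x : GA) (φ : GA → ℂ) (g : GA) : sq (rt x φ) g = sq φ (g * x) := by
  funext k
  show 2 * φ (dk k * g * x) - φ (dk (k + 1) * g * x) = _
  simp only [sq, mul_assoc]

theorem XB_stable : Stable (rt : Representation ℂ GA (GA → ℂ)) XB := by
  intro x φ hφ g
  rw [sq_rt]
  exact hφ (g * x)

theorem Bo_rt (x : GA) (φ ψ : XB) (h : (ψ : GA → ℂ) = rt x φ) : Bo ψ = rt x (Bo φ) := by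
  funext g
  show limUnder atTop (sq ψ g) = limUnder atTop (sq φ (g * x))
  rw [h, sq_rt]

/-- the properties of the automorphic form `F0` -/
structure IsF0 (F : GA → ℂ) : Prop where
  left : ∀ γ g, F (dg γ * g) = F g
  right : ∀ g k, (∀ v : Pl, Integral (pr v k)) → k.2 = 1 → F (g * k) = F g
  iw : ∀ g i, Iw i → F (g * ri i) = F g
  cen : ∀ g z, F (g * ri (bor z 0 z)) = F g
  w : ∀ g, F g + F (g * ri (ww pinf)) = -1
  rel : ∀ g, F g + F (g * ri sw) + F (g * ri (nu 1 * sw)) = -1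
  asy : ∀ g, ∃ N : ℕ, ∀ k : ℕ, N ≤ k → sq F g k = - phi0 g

section ext

variable {γ : GL (Fin 2) K}

theorem inv_low {L : Type} [Field L] (γ : GL (Fin 2) L) (h : γ.1 1 0 = 0) : (γ⁻¹).1 1 0 = 0 := by
  have h1 : γ.1.det ≠ 0 := by
    have := γ.det.ne_zero
    simpa using this
  rw [Matrix.det_fin_two, h, mul_zero, sub_zero] at h1
  have h2 : ((γ⁻¹).1 * γ.1) 1 0 = 0 := by
    have : (γ⁻¹).1 * γ.1 = 1 := γ.inv_mul
    rw [this]
    simp
  rw [Matrix.mul_apply, Fin.sum_univ_two, h, mul_zero, add_zero] at h2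
  rcases mul_eq_zero.1 h2 with h3 | h3
  · exact h3
  · exact absurd h3 (left_ne_zero_of_mul h1)

end ext

/-- `F0` exists -/
theorem exists_F0 (cn : S_CN) (fri : S_FRI) (iwa : S_IWA) (intk : S_INTK) (desc : S_DESC)
    (asy : S_ASY) (f : GL (Fin 2) Kinf → ℂ) (hf : IsEis f) : ∃ F : GA → ℂ, IsF0 F := by
  obtain ⟨F, hF⟩ := desc cn iwa intk f hf.left
  have dec : ∀ x : GA, ∃ (γ : GL (Fin 2) K) (u : GL (Fin 2) Af), γ.1 1 0 = 0 ∧
      (∀ v : Pl, Integral (GeneralLinearGroup.map (ev v) u)) ∧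
      x = (GeneralLinearGroup.map (algebraMap K Af) γ * u, x.2) := by
    intro x
    obtain ⟨γ, u, h1, h2, h3⟩ := iwa cn x.1
    exact ⟨γ, u, h1, h2, Prod.ext h3 rfl⟩
  -- right translation at infinity
  have key : ∀ x : GA, ∃ γ : GL (Fin 2) K, γ.1 1 0 = 0 ∧ ∀ (y z : GL (Fin 2) Kinf),
      F (x.1, y * x.2 * z) = f (GeneralLinearGroup.map (algebraMap K Kinf) γ * (y * x.2 * z)) := by
    intro x
    obtain ⟨γ, u, h1, h2, h3⟩ := dec x
    refine ⟨γ⁻¹, inv_low _ h1, fun y z => ?_⟩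
    have h4 : x.1 = GeneralLinearGroup.map (algebraMap K Af) γ * u := congrArg Prod.fst h3
    rw [h4, hF _ _ _ h2]
  have e1 : ∀ (x : GA) (h : GL (Fin 2) Kinf), x * ri h = (x.1, 1 * x.2 * h) := by
    intro x h
    rw [one_mul]
    exact Prod.ext (mul_one _) rfl
  have e2 : ∀ (x : GA), x = (x.1, 1 * x.2 * 1) := by
    intro x
    rw [one_mul, mul_one]
  refine ⟨F, ?_, ?_, ?_, ?_, ?_, ?_, ?_⟩
  · intro γ' x
    obtain ⟨γ, u, h1, h2, h3⟩ := dec x
    have h4 : dg γ' * x = (GeneralLinearGroup.map (algebraMap K Af) (γ' * γ) * u,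
        GeneralLinearGroup.map (algebraMap K Kinf) γ' * x.2) := by
      conv_lhs => rw [h3]
      refine Prod.ext ?_ rfl
      show GeneralLinearGroup.map (algebraMap K Af) γ' *
        (GeneralLinearGroup.map (algebraMap K Af) γ * u) = _
      rw [map_mul, mul_assoc]
    rw [h4, hF _ _ _ h2]
    conv_rhs => rw [h3, hF _ _ _ h2]
    congr 1
    rw [_root_.mul_inv_rev, map_mul, mul_assoc, ← mul_assoc _ _ x.2, ← map_mul, inv_mul_cancel,
      map_one, one_mul]
  · intro x k hk hk2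
    obtain ⟨γ, u, h1, h2, h3⟩ := dec x
    have h4 : x * k = (GeneralLinearGroup.map (algebraMap K Af) γ * (u * k.1), x.2) := by
      conv_lhs => rw [h3]
      refine Prod.ext ?_ ?_
      · show GeneralLinearGroup.map (algebraMap K Af) γ * u * k.1 = _
        rw [mul_assoc]
      · show x.2 * k.2 = x.2
        rw [hk2, mul_one]
    have h5 : ∀ v : Pl, Integral (GeneralLinearGroup.map (ev v) (u * k.1)) := by
      intro v
      rw [map_mul]
      exact intg_mul (h2 v) (hk v)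
    rw [h4, hF _ _ _ h5]
    conv_rhs => rw [h3, hF _ _ _ h2]
  · intro x i hi
    obtain ⟨γ, -, h⟩ := key x
    rw [e1, h, ← mul_assoc, hf.iw _ _ hi]
    conv_rhs => rw [e2 x, h]
    rw [mul_one]
  · intro x z
    obtain ⟨γ, -, h⟩ := key x
    rw [e1, h, ← mul_assoc, hf.cen]
    conv_rhs => rw [e2 x, h]
    rw [mul_one]
  · intro x
    obtain ⟨γ, -, h⟩ := key x
    rw [e1, h, ← mul_assoc]
    conv_lhs => enter [1]; rw [e2 x, h]
    rw [mul_one]
    exact hf.w _
  · intro x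
    obtain ⟨γ, -, h⟩ := key x
    rw [e1, e1, h, h, ← mul_assoc, ← mul_assoc _ _ (nu 1 * sw)]
    conv_lhs => enter [1, 1]; rw [e2 x, h]
    rw [mul_one]
    exact hf.rel _
  · intro x
    obtain ⟨γ, hγ, h⟩ := key x
    obtain ⟨N, hN⟩ := asy fri f hf (GeneralLinearGroup.map (algebraMap K Kinf) γ) x.2 (by
      show algebraMap K Kinf (γ.1 1 0) = 0
      rw [hγ, map_zero])
    refine ⟨N, fun k hk => ?_⟩
    have e3 : ∀ j : ℕ, dk j * x = (x.1, bor (Tu ^ j) 0 1 * x.2 * 1) := by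
      intro j
      rw [mul_one]
      exact Prod.ext (one_mul _) rfl
    unfold sq
    rw [e3, e3, h, h, mul_one, mul_one, ← mul_assoc, ← mul_assoc, hN k hk]
    unfold phi0
    split_ifs <;> simp

end Pool.Agent.W2helper2.LL
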