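import Pool.Agent.W2helper63.LL.BJ

/-!
# Pieces of S_BJ (project LL, stage 2)

Notation: `q = 2`, `R = F₂[T]`, `|T| = exp 1` at infinity, `D = (T 0; 0 1) = bor Tu 0 1`.
Useful lemmas already landed: `Pool.Agent.W2helper63.LL.FR.{approx, v_inf, dense_inf, fri}`
(W2helper44/LL/FR.lean), `Pool.Agent.W2helper46.LL.{val_inf, val_T, val_pinf, cn}`
(W2helper46/LL/{INV,CN}.lean), `Pool.Agent.W2helper2.LL.{intg_one, intg_inv, intg_mul,
mul_entry_le, val_sum_le, val_sum_lt, pr_apply, pr_inv_apply, pr_mul}` (W2helper2/LL/Opn.lean).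
-/

set_option autoImplicit false

noncomputable section

namespace Pool.Agent.W2helper2.LL

open IsDedekindDomain Polynomial Matrix WithZero
open Pool.Agent.W2helper63.LL
open scoped Classical

/-- `F₂[T] → F₂((1/T))` -/
def io : R →+* Kinf := (algebraMap K Kinf).comp (algebraMap R K)

/-- the matrix `D = (T 0; 0 1)` -/
def Dm : GL (Fin 2) Kinf := bor Tu 0 1

/-- the max norm of a row vector -/
def nm (x : Fin 2 → Kinf) : WithZero (Multiplicative ℤ) := max (Valued.v (x 0)) (Valued.v (x 1))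

/-- the row vector `ξ g`, `ξ ∈ R²` -/
def vec (ξ : Fin 2 → R) (g : GL (Fin 2) Kinf) : Fin 2 → Kinf := (fun i => io (ξ i)) ᵥ* g.1

/-- `exp m` is the first minimum of the lattice `R² g` -/
def IsMin (g : GL (Fin 2) Kinf) (m : ℤ) : Prop :=
  (∃ ξ : Fin 2 → R, ξ ≠ 0 ∧ nm (vec ξ g) = exp m) ∧
    ∀ ξ : Fin 2 → R, ξ ≠ 0 → exp m ≤ nm (vec ξ g)

/-- PIECE MIN: existence, uniqueness and invariance of the first minimum.
Existence: `‖ξ‖ ≤ C ‖ξ g‖` with `C` the max of the entries of `g⁻¹`, and `‖ξ‖ ≥ 1` for `ξ ≠ 0`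
in `R²`; so the set of integers `m` with `nm (vec ξ g) = exp m`, some `ξ ≠ 0`, is bounded below
(`Int.exists_least_of_bdd`). Invariance: `‖x k‖ = ‖x‖` for `k` integral;
`vec ξ (ρ g) = vec (ξ ρ) g`. -/
def S_MIN : Prop :=
  (∀ g, ∃ m, IsMin g m) ∧ (∀ g m m', IsMin g m → IsMin g m' → m = m') ∧
  (∀ (ρ : GL (Fin 2) R) g m, IsMin g m → IsMin (GeneralLinearGroup.map io ρ * g) m) ∧
  (∀ g k m, IsMin g m → Integral k → IsMin (g * k) m) ∧
  (∀ g (z : Kinfˣ) (j : ℤ) m, Valued.v (z : Kinf) = exp j → IsMin g m →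
    IsMin (g * bor z 0 z) (m + j))

/-- PIECE E4: two different minimal vectors form a basis of `R²`, so that `|det g| = exp (2m)`,
if they are independent modulo the maximal ideal. Proof: put `Δ = ξ₀ ∧ ξ₁ ∈ R`. Given: `|Δ| |det g|
= |v₀ ∧ v₁| = exp (2m)` (third hypothesis). So `Δ ≠ 0`; for `ξ ∈ R²`: `Δ ξ = α ξ₀ + β ξ₁`
(Cramer), divide `α = Δ α₁ + α₀`, `β = Δ β₁ + β₀` with remainder; `ξ' = ξ - α₁ ξ₀ - β₁ ξ₁`,
`Δ ξ' = α₀ ξ₀ + β₀ ξ₁`, `‖ξ' g‖ < exp m`, so `ξ' = 0`. With `ξ = e₁, e₂`: `1` is a multiple of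
`Δ`, so `Δ` is a unit and `|Δ| = 1`. -/
def S_E4 : Prop :=
  ∀ g m, IsMin g m → ∀ ξ η : Fin 2 → R, nm (vec ξ g) = exp m → nm (vec η g) = exp m →
    Valued.v (vec ξ g 0 * vec η g 1 - vec ξ g 1 * vec η g 0) = exp (2 * m) →
    Valued.v g.1.det = exp (2 * m)

/-- PIECE TRI. For a vector `v ≠ 0` exactly one of `v D`, `v sw D`, `v (nu 1) sw D` has the norm
`‖v‖`, the two others have norm `exp 1 * ‖v‖` (according to `|a| < |b|`, `|b| < |a|`, `|a| = |b|`
for `v = (a, b)`; in the last case `|a + b| < |a|`, by `Res2.two`). If `g` has one minimal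
vector, one of the three minima is `m` and the two others `m + 1`. If `ξ ≠ η` are minimal, so is
`ξ + η`, and the three have three different types; the determinant of two vectors of norm
`exp m` of different types has norm `exp (2m)` (then apply `S_E4`). -/
def S_TRI : Prop := S_FRI → S_E4 → ∀ g m, IsMin g m →
  ((IsMin (g * Dm) m ∧ IsMin (g * sw * Dm) (m + 1) ∧ IsMin (g * (nu 1 * sw) * Dm) (m + 1)) ∨
   (IsMin (g * Dm) (m + 1) ∧ IsMin (g * sw * Dm) m ∧ IsMin (g * (nu 1 * sw) * Dm) (m + 1)) ∨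
   (IsMin (g * Dm) (m + 1) ∧ IsMin (g * sw * Dm) (m + 1) ∧ IsMin (g * (nu 1 * sw) * Dm) m) ∨
   (IsMin (g * Dm) m ∧ IsMin (g * sw * Dm) m ∧ IsMin (g * (nu 1 * sw) * Dm) m ∧
     Valued.v g.1.det = exp (2 * m)))

/-- the properties of the function `f` on `GL₂(Kinf)` -/
structure IsEis (f : GL (Fin 2) Kinf → ℂ) : Prop where
  left : ∀ (ρ : GL (Fin 2) R) g, f (GeneralLinearGroup.map io ρ * g) = f g
  iw : ∀ g i, Iw i → f (g * i) = f g
  cen : ∀ g (z : Kinfˣ), f (g * bor z 0 z) = f g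
  w : ∀ g, f g + f (g * ww pinf) = -1
  rel : ∀ g, f g + f (g * sw) + f (g * (nu 1 * sw)) = -1

/-- PIECE EX. Put `h g = (2/3) 2^(log |det g| - 2 m(g)) + m(g)`, `m(g)` the first minimum. By
`S_TRI`: `h (g D) + h (g sw D) + h (g nu1 sw D) = 3 h g + 2` (in each of the four cases). And
`h (g z) = h g + j` for a scalar `z` with `|z| = exp j`, `h (g k) = h g` for `k` integral. Take
`f g = h (g D) - h g - 1`. For `Iw`: `D⁻¹ i D` is integral. For `w`: `ww pinf = (1 0; 0 T⁻¹) sw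
= D T⁻¹ sw` and `ww pinf * D = sw`. -/
def S_EX : Prop := S_FRI → S_MIN → S_TRI → S_E4 → ∃ f, IsEis f

/-- PIECE ASY. Values on upper triangular matrices. `x_n = f (T^n 0; 0 1)` and
`y_n = f ((T^n 0; 0 1) sw)` (`n ≥ 0`) satisfy `x_n + 2 y_n = -1` (relation `rel`;
`(T^n 0;0 1) nu 1 = nu (T^n) (T^n 0; 0 1)` and `nu (T^n)` is absorbed on the left), `x_n + y_{n+1}
= -1` (relation `w` and the centre), `x_0 = y_0` (left invariance under `sw`). Hence
`y_n = -2^n/3`, `x_n = (2/3) 2^n - 1`, so `2 x_n - x_{n+1} = -1` and `2 y_n - y_{n+1} = 0`.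
For `b` upper triangular and any `g`: `g = b' κ ι`, `b'` upper triangular, `κ ∈ {1, sw}`,
`ι ∈ Iw`, and `κ = 1` iff `|c| < |d|` for the bottom row `(c, d)` of `g`. The product
`b (T^k 0; 0 1) b'` is `nu y * diag(A, B)` with `|A| ≥ |B|` for `k` large; `y = r + ε`, `r ∈ R`,
`|ε| < 1` (density of `K` and division with remainder); `nu r` is absorbed on the left,
`nu ε diag(A,B) = diag(A,B) nu (ε B/A)`, and `nu (ε B/A)`, as well as `sw⁻¹ nu (ε B/A) sw`,
lies in `Iw`; units are absorbed as well. -/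
def S_ASY : Prop := S_FRI → ∀ f : GL (Fin 2) Kinf → ℂ, IsEis f →
  ∀ b g : GL (Fin 2) Kinf, b.1 1 0 = 0 → ∃ N : ℕ, ∀ k : ℕ, N ≤ k →
    2 * f (b * bor (Tu ^ k) 0 1 * g) - f (b * bor (Tu ^ (k + 1)) 0 1 * g) =
      if Valued.v (g.1 1 0) < Valued.v (g.1 1 1) then -1 else 0

/-- PIECE IWA: Iwasawa decomposition over the finite adeles with a rational upper triangular
matrix. Locally `g_v = b_v k_v` (for the bottom row `(c, d)` of `g_v`: if `|c| ≤ |d|` multiply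
from the right by `(1 0; -c/d 1)`, else first by `sw`); for almost all `v` take `b_v = 1`,
`k_v = g_v`. This gives a finite adelic `b = (a x; 0 d)`, `a, d` ideles. By `S_CN` `a = α u₁`,
`d = δ u₂`, `α, δ ∈ Kˣ`, `u_i` units everywhere; `(a x; 0 d) = (α β; 0 δ) (u₁ y; 0 u₂)` with
`y = (x - β u₂)/α`: choose `β ∈ K` with `x u₂⁻¹ - β ∈ α Ô` (`Af = K + Ô`, strong approximation
for the additive group: partial fractions, or see Mathlib for FiniteAdeleRing density). -/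
def S_IWA : Prop := S_CN → ∀ g : GL (Fin 2) Af, ∃ (γ : GL (Fin 2) K) (u : GL (Fin 2) Af),
  γ.1 1 0 = 0 ∧ (∀ v : Pl, Integral (GeneralLinearGroup.map (ev v) u)) ∧
    g = GeneralLinearGroup.map (algebraMap K Af) γ * u

/-- PIECE ADD: `Af = K + Ô` (used in IWA). -/
def S_ADD : Prop := ∀ x : Af, ∃ κ : K, ∀ v : Pl, Valued.v ((x - algebraMap K Af κ) v) ≤ 1

/-- PIECE INTK: `GL₂(K) ∩ GL₂(Ô) = GL₂(R)`. -/
def S_INTK : Prop := ∀ γ : GL (Fin 2) K, (∀ v : Pl, Integral (pr v (dg γ))) →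
  ∃ ρ : GL (Fin 2) R, γ = GeneralLinearGroup.map (algebraMap R K) ρ

/-- PIECE DESC: extension of a left `GL₂(R)`-invariant function to the adelic group. -/
def S_DESC : Prop := S_CN → S_IWA → S_INTK → ∀ f : GL (Fin 2) Kinf → ℂ,
  (∀ (ρ : GL (Fin 2) R) g, f (GeneralLinearGroup.map io ρ * g) = f g) →
  ∃ F : GA → ℂ, ∀ (γ : GL (Fin 2) K) (u : GL (Fin 2) Af) (g : GL (Fin 2) Kinf),
    (∀ v : Pl, Integral (GeneralLinearGroup.map (ev v) u)) →
    F (GeneralLinearGroup.map (algebraMap K Af) γ * u, g) =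
      f (GeneralLinearGroup.map (algebraMap K Kinf) γ⁻¹ * g)

end Pool.Agent.W2helper2.LL
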